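import Pool.Agent.SSF.Stmts

/-!
# Squad SSF, row IMM: the embedding
-/

set_option autoImplicit false

open Set Topology
open scoped BigOperators

namespace Pool.Agent.SSF.H52

open Pool.Agent.LSG Pool.Agent.LPR Pool.Agent.SSF

/-- a convex combination is bounded by the values -/
theorem sum_bd {M : Type} (ν : M →₀ ℝ) (G : M → ℝ) (B : ℝ) (h0 : ∀ a, 0 ≤ ν a)
    (h1 : ν.sum (fun _ r => r) = 1) (hG : ∀ a, ν a ≠ 0 → |G a| ≤ B) :
    |ν.sum fun a r => r * G a| ≤ B := by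
  unfold Finsupp.sum at h1 ⊢
  calc |∑ a ∈ ν.support, ν a * G a| ≤ ∑ a ∈ ν.support, |ν a * G a| :=
        Finset.abs_sum_le_sum_abs _ _
    _ ≤ ∑ a ∈ ν.support, ν a * B := by
        refine Finset.sum_le_sum fun a ha => ?_
        rw [abs_mul, abs_of_nonneg (h0 a)]
        exact mul_le_mul_of_nonneg_left (hG a (Finsupp.mem_support_iff.1 ha)) (h0 a)
    _ = B := by rw [← Finset.sum_mul, h1, one_mul]

/-- Row IMM. -/
theorem imm (h1 : GmcStmt) (h2 : UnmStmt) : ImmStmt := by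
  classical
  intro S M _ _ _ O ρ χ ψ K c p η w θ ν hP hPl hC hW F hF
  obtain ⟨hFc, hF0, hF1⟩ := hF
  obtain ⟨hU1, hU2⟩ := h2 S M O ρ χ ψ K c p η w θ hP hPl hC
  let T : ℕ × ℕ → S × M → ℝ := fun α x => θ α.1 (ρ x) * w α.1 α.2 x.2 *
    (ν α.1 α.2 x.2).sum fun a r => r * Gm (η α.1 α.2) (ψ α.1 α.2) F (x.1, a)
  have himap : ∀ x, im θ ρ ψ η w ν F x = ∑ᶠ α, T α x := fun x => rfl
  have hG : ∀ α : ℕ × ℕ, (∀ s n u, Gm (η α.1 α.2) (ψ α.1 α.2) F (s, η α.1 α.2 n u) =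
        ψ α.1 α.2 (s, u) * F ((s, u), ((n : ℕ) : OnePoint ℕ))) ∧
      (∀ s, Gm (η α.1 α.2) (ψ α.1 α.2) F (s, p α.1 α.2) = 0) ∧
      IsClosed (Lim (p α.1 α.2) (η α.1 α.2)) ∧
      ContinuousOn (Gm (η α.1 α.2) (ψ α.1 α.2) F) (Set.univ ×ˢ Lim (p α.1 α.2) (η α.1 α.2)) :=
    fun α => h1 S M (p α.1 α.2) (η α.1 α.2) ((1 / 2 : ℝ) ^ (α.1 + 6)) (ψ α.1 α.2) F
      (hPl.cont α.1 α.2) (hPl.inj α.1 α.2) (hPl.ne α.1 α.2) (hPl.conv α.1 α.2)
      (hP.psi01 α.1 α.2) hFc hF1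
  have hTc : ∀ α, Continuous (T α) := by
    intro α
    have g1 : Continuous fun x : S × M => θ α.1 (ρ x) := (θ α.1).continuous.comp ρ.continuous
    have g2 : Continuous fun x : S × M => w α.1 α.2 x.2 :=
      (w α.1 α.2).continuous.comp continuous_snd
    have g3 : Continuous fun x : S × M =>
        (ν α.1 α.2 x.2).sum fun a r => r * Gm (η α.1 α.2) (ψ α.1 α.2) F (x.1, a) :=
      hW.cont α.1 α.2 S (Gm (η α.1 α.2) (ψ α.1 α.2) F) (hG α).2.2.2
    exact (g1.mul g2).mul g3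
  -- the bound
  have hTb : ∀ α x B, 0 ≤ B → (∀ n u, ψ α.1 α.2 (x.1, u) ≠ 0 → w α.1 α.2 x.2 ≠ 0 →
      |F ((x.1, u), ((n : ℕ) : OnePoint ℕ))| ≤ B) → |T α x| ≤ B := by
    intro α x B hB hb
    by_cases hw : w α.1 α.2 x.2 = 0
    · show |θ α.1 (ρ x) * w α.1 α.2 x.2 * _| ≤ B
      rw [hw, mul_zero, zero_mul, abs_zero]
      exact hB
    · have g1 := hC.bd α.1 (ρ x)
      have g2 := hPl.w01 α.1 α.2 x.2
      have g3 : |(ν α.1 α.2 x.2).sum fun a r =>
          r * Gm (η α.1 α.2) (ψ α.1 α.2) F (x.1, a)| ≤ B := by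
        refine sum_bd _ (fun a => Gm (η α.1 α.2) (ψ α.1 α.2) F (x.1, a)) B
          (hW.nonneg α.1 α.2 x.2) (hW.sum α.1 α.2 x.2) fun a ha => ?_
        rcases hW.supp α.1 α.2 x.2 a ha with rfl | ⟨n, u, rfl⟩
        · rw [(hG α).2.1 x.1, abs_zero]
          exact hB
        · rw [(hG α).1 x.1 n u]
          by_cases hψ : ψ α.1 α.2 (x.1, u) = 0
          · rw [hψ, zero_mul, abs_zero]
            exact hB
          · have g4 := hP.psi01 α.1 α.2 (x.1, u)
            rw [abs_mul, abs_of_nonneg g4.1]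
            have g5 := hb n u hψ hw
            calc ψ α.1 α.2 (x.1, u) * |F ((x.1, u), ((n : ℕ) : OnePoint ℕ))|
                ≤ 1 * B := mul_le_mul g4.2 g5 (abs_nonneg _) zero_le_one
              _ = B := one_mul B
      show |θ α.1 (ρ x) * w α.1 α.2 x.2 * _| ≤ B
      rw [abs_mul, abs_mul, abs_of_nonneg g1.1, abs_of_nonneg g2.1]
      have g6 : θ α.1 (ρ x) * w α.1 α.2 x.2 ≤ 1 := mul_le_one₀ g1.2 g2.1 g2.2
      calc θ α.1 (ρ x) * w α.1 α.2 x.2 * |(ν α.1 α.2 x.2).sum fun a r =>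
            r * Gm (η α.1 α.2) (ψ α.1 α.2) F (x.1, a)|
          ≤ 1 * B := mul_le_mul g6 g3 (abs_nonneg _) zero_le_one
        _ = B := one_mul B
  have hT3 : ∀ α x, T α x ≠ 0 → θ α.1 (ρ x) * w α.1 α.2 x.2 ≠ 0 ∧
      (1 / 2 : ℝ) ^ (α.1 + 4) < ρ x ∧ ρ x < 16 * (1 / 2 : ℝ) ^ α.1 ∧ α.2 < K α.1 := by
    intro α x hx
    have g1 : θ α.1 (ρ x) * w α.1 α.2 x.2 ≠ 0 := left_ne_zero_of_mul hx
    obtain ⟨g2, g3⟩ := hC.supp α.1 (ρ x) (left_ne_zero_of_mul g1)
    exact ⟨g1, g2, g3, (hPl.supp α.1 α.2 x.2 (right_ne_zero_of_mul g1)).1⟩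
  have hT1 : ∀ x α β, T α x ≠ 0 → T β x ≠ 0 → α = β := by
    intro x α β hα hβ
    obtain ⟨e1, e2⟩ := hU1 x α.1 α.2 β.1 β.2 (hT3 α x hα).1 (hT3 β x hβ).1
    exact Prod.ext e1 e2
  have hoff : ∀ x, x ∉ O → ∀ α, T α x = 0 := by
    intro x hx α
    by_contra hne
    obtain ⟨-, g2, -, -⟩ := hT3 α x hne
    have h0 : ρ x = 0 := by
      by_contra h1
      exact hx ((hP.zero x).1 h1)
    rw [h0] at g2
    exact absurd g2 (not_lt.2 (by positivity))
  have hUC : ∀ x₀ : S × M, ∀ ε : ℝ, 0 < ε → ∃ Fs : Finset (ℕ × ℕ),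
      ∀ᶠ x in 𝓝 x₀, ∀ α, α ∉ Fs → |T α x| < ε := by
    intro x₀ ε hε
    by_cases hx : x₀ ∈ O
    · have hr : 0 < ρ x₀ := lt_of_le_of_ne (hP.nonneg x₀) (Ne.symm ((hP.zero x₀).2 hx))
      obtain ⟨N, hN⟩ := exists_pow_lt_of_lt_one (show (0 : ℝ) < ρ x₀ / 32 by positivity)
        (show (1 / 2 : ℝ) < 1 by norm_num)
      refine ⟨Finset.range N ×ˢ Finset.range ((Finset.range N).sup K), ?_⟩
      have e2 : ∀ᶠ x in 𝓝 x₀, ρ x₀ / 2 < ρ x :=
        ρ.continuous.continuousAt.eventually (lt_mem_nhds (by linarith))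
      filter_upwards [e2] with x hx2
      intro α hα
      by_cases hz : T α x = 0
      · rw [hz, abs_zero]
        exact hε
      · exfalso
        obtain ⟨-, -, g3, g4⟩ := hT3 α x hz
        have hm : α.1 < N := by
          by_contra hcon
          have h5 : (1 / 2 : ℝ) ^ α.1 ≤ (1 / 2 : ℝ) ^ N :=
            pow_le_pow_of_le_one (by norm_num) (by norm_num) (not_lt.1 hcon)
          linarith
        apply hα
        rw [Finset.mem_product, Finset.mem_range, Finset.mem_range]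
        exact ⟨hm, g4.trans_le (Finset.le_sup (f := K) (Finset.mem_range.2 hm))⟩
    · refine ⟨∅, ?_⟩
      have hρ0 : ρ x₀ = 0 := by
        by_contra hne
        exact hx ((hP.zero x₀).1 hne)
      have h1 : ∀ᶠ y in 𝓝 x₀, ∀ n ∈ (Set.univ : Set (OnePoint ℕ)), |F (y, n)| < ε / 2 := by
        refine isCompact_univ.eventually_forall_of_forall_eventually (fun n _ => ?_)
        have hc : Continuous fun y : (S × M) × OnePoint ℕ => |F (y.1, y.2)| :=
          continuous_abs.comp hFc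
        have h0 : |F (x₀, n)| < ε / 2 := by
          rw [hF0 x₀ hx n, abs_zero]
          positivity
        exact hc.continuousAt.eventually (gt_mem_nhds h0)
      obtain ⟨A, hA, B, hB, hAB⟩ := mem_nhds_prod_iff.1 h1
      obtain ⟨δ, hδ, hδB⟩ := Metric.mem_nhds_iff.1 hB
      have e1 : ∀ᶠ x in 𝓝 x₀, x.1 ∈ A := continuous_fst.continuousAt.eventually hA
      have e2 : ∀ᶠ x in 𝓝 x₀, ρ x < δ / 2 :=
        ρ.continuous.continuousAt.eventually (gt_mem_nhds (by rw [hρ0]; positivity))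
      have e3 : ∀ᶠ x in 𝓝 x₀, dist x.2 x₀.2 < δ / 2 :=
        (continuous_snd.continuousAt (x := x₀)).eventually (Metric.ball_mem_nhds _ (by positivity))
      filter_upwards [e1, e2, e3] with x hx1 hx2 hx3
      intro α _
      by_cases hz : T α x = 0
      · rw [hz, abs_zero]
        exact hε
      · obtain ⟨g1, g2, -, -⟩ := hT3 α x hz
        have h5 : |T α x| ≤ ε / 2 := by
          refine hTb α x (ε / 2) (by positivity) fun n u hψ hw => ?_
          obtain ⟨g5, -⟩ := hU2 x.1 x.2 u α.1 α.2 hw hψ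
          have h6 : dist u x₀.2 < δ := by
            have h7 : dist u x.2 < δ / 2 := by
              rw [dist_comm]
              linarith
            have h8 := dist_triangle u x.2 x₀.2
            linarith
          have h9 : (x.1, u) ∈ A ×ˢ B := ⟨hx1, hδB h6⟩
          exact (hAB h9 _ (Set.mem_univ _)).le
        linarith
  have happ : ∀ (x : S × M) (Fs : Finset (ℕ × ℕ)) (ε : ℝ), 0 < ε →
      (∀ α, α ∉ Fs → |T α x| < ε) → |im θ ρ ψ η w ν F x - ∑ α ∈ Fs, T α x| < ε := by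
    intro x Fs ε hε hx
    rw [himap]
    by_cases hsub : ∀ α, T α x ≠ 0 → α ∈ Fs
    · rw [finsum_eq_sum_of_support_subset _ (s := Fs) (fun α hα => hsub α hα), sub_self, abs_zero]
      exact hε
    · push Not at hsub
      obtain ⟨β, hβ, hβF⟩ := hsub
      have h1 : ∑ᶠ α, T α x = T β x := finsum_eq_single _ β (fun α hα => by
        by_contra hne
        exact hα (hT1 x α β hne hβ))
      have h2 : ∑ α ∈ Fs, T α x = 0 := Finset.sum_eq_zero (fun α hα => by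
        by_contra hne
        exact hβF (hT1 x α β hne hβ ▸ hα))
      rw [h1, h2, sub_zero]
      exact hx β hβF
  refine ⟨?_, ?_⟩
  · refine continuous_iff_continuousAt.2 fun x₀ => Metric.tendsto_nhds.2 fun ε hε => ?_
    obtain ⟨Fs, hFs⟩ := hUC x₀ (ε / 3) (by positivity)
    have hg : Continuous fun x => ∑ α ∈ Fs, T α x := continuous_finsetSum _ fun α _ => hTc α
    have hg' := Metric.tendsto_nhds.1 (hg.continuousAt (x := x₀)) (ε / 3) (by positivity)
    have h3 := happ x₀ Fs (ε / 3) (by positivity) hFs.self_of_nhds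
    filter_upwards [hFs, hg'] with x h1 h2
    have h4 := happ x Fs (ε / 3) (by positivity) h1
    rw [Real.dist_eq] at h2 ⊢
    rw [abs_lt] at h2 h3 h4 ⊢
    constructor <;> linarith [h2.1, h2.2, h3.1, h3.2, h4.1, h4.2]
  · intro x hx
    show im θ ρ ψ η w ν F x = 0
    rw [himap]
    have h1 : ∀ α, T α x = 0 := hoff x hx
    rw [finsum_congr h1, finsum_zero]

end Pool.Agent.SSF.H52
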